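import Pool.Agent.T9h54.FF.Spec
import Pool.Agent.T9h85.LZ.E1

/-!
# Project FF, piece E1G: few primitive characters have an L-function which vanishes at a given point
-/

set_option autoImplicit false

namespace Pool.Agent.T9h85.FF

open Finset MeasureTheory Pool.Agent.T9h54.FF Pool.Agent.T9h85.LZ

set_option maxHeartbeats 1000000 in
theorem e1g : S_E1G := by
  intro ρ e h7 h1 he0
  have hρ : 0 < ρ.re := by linarith
  set β := ρ.re with hβ
  rw [div_lt_iff₀ (by linarith)] at he0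
  have he1 : 0 < e := by
    by_contra h
    push Not at h
    nlinarith
  obtain ⟨x, hx1', hx2⟩ : ∃ x : ℝ, max (1 / (2 * (2 * β - 1))) ((2 - e) / (2 * β - 1)) < x ∧
      x < e / (4 * (1 - β)) := by
    apply _root_.exists_between
    apply max_lt
    · rw [div_lt_div_iff₀ (by linarith) (by linarith)]
      have h2 : 2 * (1 - β) * (3 - 2 * β) < e * (2 * β - 1) * (3 - 2 * β) := by
        have h3 : 8 * (1 - β) * (2 * β - 1) < e * (3 - 2 * β) * (2 * β - 1) :=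
          mul_lt_mul_of_pos_right he0 (by linarith)
        have h4 : 2 * (1 - β) * (3 - 2 * β) ≤ 8 * (1 - β) * (2 * β - 1) := by
          nlinarith [mul_nonneg (by linarith : (0 : ℝ) ≤ 1 - β) (by linarith : (0 : ℝ) ≤ 10 * β - 7)]
        nlinarith
      have h5 : 2 * (1 - β) < e * (2 * β - 1) :=
        lt_of_mul_lt_mul_right h2 (by linarith)
      linarith
    · rw [div_lt_div_iff₀ (by linarith) (by linarith)]
      nlinarith
  have hx1 : 1 / (2 * (2 * β - 1)) < x := (le_max_left _ _).trans_lt hx1'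
  have hx3 : (2 - e) / (2 * β - 1) < x := (le_max_right _ _).trans_lt hx1'
  have hx0 : 0 < x := lt_trans (by apply div_pos one_pos; linarith) hx1
  have g1 : 0 < e - 4 * x * (1 - β) := by
    rw [lt_div_iff₀ (by linarith)] at hx2
    linarith
  have g2 : 0 < x * (2 * β - 1) - 1 / 2 := by
    rw [div_lt_iff₀ (by linarith)] at hx1
    linarith
  have g3 : 0 < x * (2 * β - 1) - (2 - e) := by
    rw [div_lt_iff₀ (by linarith)] at hx3
    linarith
  obtain ⟨m, hm0, hm1, hm2, hm4, hm3⟩ : ∃ m : ℝ, 0 < m ∧ m ≤ e - 4 * x * (1 - β) ∧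
      m ≤ x * (2 * β - 1) - 1 / 2 ∧ m ≤ x * (2 * β - 1) - (2 - e) ∧ m ≤ 3 / 2 :=
    ⟨min (min (e - 4 * x * (1 - β)) (x * (2 * β - 1) - 1 / 2))
      (min (x * (2 * β - 1) - (2 - e)) (3 / 2)), lt_min (lt_min g1 g2) (lt_min g3 (by norm_num)),
      (min_le_left _ _).trans (min_le_left _ _), (min_le_left _ _).trans (min_le_right _ _),
      (min_le_right _ _).trans (min_le_left _ _), (min_le_right _ _).trans (min_le_right _ _)⟩
  obtain ⟨η, hη⟩ : ∃ η : ℝ, η * (8 * x + 8) = m := ⟨m / (8 * x + 8), by field_simp⟩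
  have hη0 : 0 < η := by
    by_contra h
    push Not at h
    nlinarith
  have hηx : 0 < η * x := mul_pos hη0 hx0
  have hη' : 8 * (η * x) + 8 * η = m := by linarith
  have hη1 : η ≤ 3 / 16 := by linarith
  have he : 1 + 2 * η - 2 * ρ.re ≤ 0 := by rw [← hβ]; linarith
  obtain ⟨C, hC, hcount⟩ := count_N hη0 hρ h1 he
  obtain ⟨Cp, hCp, hPV⟩ := Pool.Agent.H38R2.CG.T_PV
  -- the choice of K
  have hK : ∀ R : ℕ, 1 ≤ R → ∃ K : ℕ, (R : ℝ) ^ x ≤ (2 : ℝ) ^ K ∧ (2 : ℝ) ^ K ≤ 2 * (R : ℝ) ^ x ∧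
      (K : ℝ) ≤ (x / (η * Real.log 2) + 1) * (R : ℝ) ^ η := by
    intro R hR
    have hR0 : (0 : ℝ) < R := by exact_mod_cast hR
    have hR1 : (1 : ℝ) ≤ R := by exact_mod_cast hR
    have hlb : 0 ≤ x * Real.logb 2 R := mul_nonneg hx0.le (Real.logb_nonneg (by norm_num) hR1)
    have e1 : (R : ℝ) ^ x = (2 : ℝ) ^ (x * Real.logb 2 R) := by
      rw [mul_comm, Real.rpow_mul (by norm_num), Real.rpow_logb (by norm_num) (by norm_num) hR0]
    refine ⟨⌈x * Real.logb 2 R⌉₊, ?_, ?_, ?_⟩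
    · rw [e1, ← Real.rpow_natCast]
      exact Real.rpow_le_rpow_of_exponent_le (by norm_num) (Nat.le_ceil _)
    · rw [e1, ← Real.rpow_natCast]
      calc (2 : ℝ) ^ ((⌈x * Real.logb 2 R⌉₊ : ℕ) : ℝ) ≤ 2 ^ (x * Real.logb 2 R + 1) :=
            Real.rpow_le_rpow_of_exponent_le (by norm_num) (Nat.ceil_lt_add_one hlb).le
        _ = 2 * 2 ^ (x * Real.logb 2 R) := by
            rw [Real.rpow_add_one (by norm_num)]
            ring
    · refine (Nat.ceil_lt_add_one hlb).le.trans ?_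
      have h2 : Real.log R ≤ (R : ℝ) ^ η / η := Real.log_le_rpow_div hR0.le hη0
      have h3 : (1 : ℝ) ≤ (R : ℝ) ^ η := Real.one_le_rpow hR1 hη0.le
      have hl2 : 0 < Real.log 2 := Real.log_pos (by norm_num)
      have h4 : x * Real.logb 2 R ≤ x / (η * Real.log 2) * (R : ℝ) ^ η := by
        rw [Real.logb, mul_div_assoc', div_mul_eq_mul_div, div_le_div_iff₀ hl2 (by positivity)]
        have : Real.log R * η ≤ (R : ℝ) ^ η := by
          rw [le_div_iff₀ hη0] at h2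
          exact h2
        nlinarith [mul_le_mul_of_nonneg_left this (by positivity : 0 ≤ x * Real.log 2)]
      linarith
  -- the smallness for large R
  set c4 : ℝ := (1 + ‖ρ‖ / β) * (Cp / η) / (1 - β) with hc4
  have hc40 : 0 ≤ c4 := by
    rw [hc4]
    apply div_nonneg _ (by linarith)
    positivity
  have hlim : ∃ R₀ : ℕ, ∀ R : ℕ, R₀ ≤ R → c4 * (R : ℝ) ^ (-(m - η)) ≤ 1 / 2 := by
    have hpos : 0 < m - η := by linarith
    have h2 : Filter.Tendsto (fun R : ℕ => c4 * (R : ℝ) ^ (-(m - η))) Filter.atTop (nhds (c4 * 0)) :=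
      ((tendsto_rpow_neg_atTop hpos).comp tendsto_natCast_atTop_atTop).const_mul c4
    rw [mul_zero] at h2
    have h3 := h2.eventually (eventually_le_nhds (by norm_num : (0 : ℝ) < 1 / 2))
    exact Filter.eventually_atTop.1 h3
  obtain ⟨R₀, hR₀⟩ := hlim
  set c5 : ℝ := x / (η * Real.log 2) + 1 with hc5
  have hc50 : 0 < c5 := by
    have hl2 : 0 < Real.log 2 := Real.log_pos (by norm_num)
    rw [hc5]
    positivity
  set S : ℕ → ℝ := fun R => ∑ r ∈ range R, (Set.ncard {χ : DirichletCharacter ℂ (r + 1) |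
    χ.IsPrimitive ∧ DirichletCharacter.LFunction χ ρ = 0} : ℝ) with hS
  have hS0 : ∀ R, 0 ≤ S R := fun R => sum_nonneg fun r _ => Nat.cast_nonneg _
  refine ⟨S R₀ + 1 + C * c5 ^ 2 * 33, ?_⟩
  intro R hR
  have hR0 : (0 : ℝ) < R := by exact_mod_cast hR
  have hR1 : (1 : ℝ) ≤ R := by exact_mod_cast hR
  have hδ : (1 : ℝ) ≤ (R : ℝ) ^ e := Real.one_le_rpow hR1 he1.le
  show S R ≤ _
  rcases le_total R R₀ with hle | hge
  · have h2 : S R ≤ S R₀ := sum_le_sum_of_subset_of_nonneg (range_mono hle)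
      fun r _ _ => Nat.cast_nonneg _
    have h3 : 0 ≤ C * c5 ^ 2 * 33 := by positivity
    have h4 : S R₀ ≤ S R₀ + 1 + C * c5 ^ 2 * 33 := by linarith
    have h5 : 0 ≤ S R₀ + 1 + C * c5 ^ 2 * 33 := by linarith [hS0 R₀]
    nlinarith
  · obtain ⟨K, hK1, hK2, hK3⟩ := hK R hR
    have hN0 : (0 : ℝ) < (2 : ℝ) ^ K := by positivity
    have hB : ∀ f : ℕ, 2 ≤ f → f ≤ R → ∀ χ : DirichletCharacter ℂ f, χ ≠ 1 →
        ∀ n : ℕ, ‖∑ k ∈ Icc 1 n, χ (k : ZMod f)‖ ≤ Cp / η * (R : ℝ) ^ (1 / 2 + η) := by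
      intro f hf hfR χ hχ n
      have h2 := hPV f χ hf hχ 0 n
      have h3 : Ioc 0 n = Icc 1 n := by
        ext k; simp only [mem_Ioc, mem_Icc]; omega
      rw [h3] at h2
      refine h2.trans ?_
      have hf0 : (0 : ℝ) < f := by exact_mod_cast (by omega : 0 < f)
      have hf1 : (1 : ℝ) ≤ f := by exact_mod_cast (by omega : 1 ≤ f)
      have hfR' : (f : ℝ) ≤ R := by exact_mod_cast hfR
      have h4 : √(f : ℝ) ≤ (R : ℝ) ^ (1 / 2 : ℝ) := by
        rw [Real.sqrt_eq_rpow]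
        exact Real.rpow_le_rpow hf0.le hfR' (by norm_num)
      have h5 : Real.log f ≤ (R : ℝ) ^ η / η :=
        (Real.log_le_rpow_div hf0.le hη0).trans (by
          apply div_le_div_of_nonneg_right _ hη0.le
          exact Real.rpow_le_rpow hf0.le hfR' hη0.le)
      calc Cp * √(f : ℝ) * Real.log f ≤ Cp * (R : ℝ) ^ (1 / 2 : ℝ) * ((R : ℝ) ^ η / η) := by
            apply mul_le_mul (mul_le_mul_of_nonneg_left h4 hCp.le) h5 (Real.log_nonneg hf1)
            positivity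
        _ = _ := by rw [Real.rpow_add hR0]; ring
    have hsm : (1 + ‖ρ‖ / ρ.re) * (Cp / η * (R : ℝ) ^ (1 / 2 + η)) * ((2 ^ K : ℕ) : ℝ) ^ (-ρ.re) *
      (((2 ^ K : ℕ) : ℝ) ^ (1 - ρ.re) / (1 - ρ.re)) ≤ 1 / 2 := by
      refine le_trans ?_ (hR₀ R hge)
      rw [← hβ]
      have e0 : ((2 ^ K : ℕ) : ℝ) = (2 : ℝ) ^ K := by push_cast; rfl
      rw [e0]
      have e2 : (1 + ‖ρ‖ / β) * (Cp / η * (R : ℝ) ^ (1 / 2 + η)) * ((2 : ℝ) ^ K) ^ (-β) *
          (((2 : ℝ) ^ K) ^ (1 - β) / (1 - β)) =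
          c4 * ((R : ℝ) ^ (1 / 2 + η) * ((2 : ℝ) ^ K) ^ (1 - 2 * β)) := by
        rw [hc4, show 1 - 2 * β = -β + (1 - β) by ring, Real.rpow_add hN0]
        ring
      rw [e2]
      apply mul_le_mul_of_nonneg_left _ hc40
      have e3 : ((2 : ℝ) ^ K) ^ (1 - 2 * β) ≤ ((R : ℝ) ^ x) ^ (1 - 2 * β) :=
        Real.rpow_le_rpow_of_nonpos (by positivity) hK1 (by linarith)
      calc (R : ℝ) ^ (1 / 2 + η) * ((2 : ℝ) ^ K) ^ (1 - 2 * β) ≤
          (R : ℝ) ^ (1 / 2 + η) * ((R : ℝ) ^ x) ^ (1 - 2 * β) :=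
            mul_le_mul_of_nonneg_left e3 (by positivity)
        _ = (R : ℝ) ^ (1 / 2 + η + x * (1 - 2 * β)) := by
            rw [← Real.rpow_mul hR0.le, ← Real.rpow_add hR0]
        _ ≤ _ := Real.rpow_le_rpow_of_exponent_le hR1 (by linarith)
    have h2 := hcount R K _ hB hsm
    rw [← hβ] at h2
    refine h2.trans ?_
    have hK4 : (K : ℝ) ^ 2 ≤ c5 ^ 2 * (R : ℝ) ^ (2 * η) := by
      calc (K : ℝ) ^ 2 ≤ (c5 * (R : ℝ) ^ η) ^ 2 := pow_le_pow_left₀ (Nat.cast_nonneg K) hK3 2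
        _ = _ := by
          rw [mul_pow, ← Real.rpow_mul_natCast hR0.le]
          congr 2
          push_cast
          ring
    have e1 : ((2 : ℝ) ^ K) ^ (2 * (2 + 2 * η - 2 * β)) ≤
        16 * (R : ℝ) ^ (x * (2 * (2 + 2 * η - 2 * β))) := by
      have hq0 : 0 ≤ 2 * (2 + 2 * η - 2 * β) := by linarith
      calc ((2 : ℝ) ^ K) ^ (2 * (2 + 2 * η - 2 * β)) ≤
          (2 * (R : ℝ) ^ x) ^ (2 * (2 + 2 * η - 2 * β)) := Real.rpow_le_rpow hN0.le hK2 hq0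
        _ = 2 ^ (2 * (2 + 2 * η - 2 * β)) * (R : ℝ) ^ (x * (2 * (2 + 2 * η - 2 * β))) := by
            rw [Real.mul_rpow (by norm_num) (by positivity), ← Real.rpow_mul hR0.le]
        _ ≤ _ := by
            apply mul_le_mul_of_nonneg_right _ (by positivity)
            calc (2 : ℝ) ^ (2 * (2 + 2 * η - 2 * β)) ≤ 2 ^ (4 : ℝ) :=
                  Real.rpow_le_rpow_of_exponent_le (by norm_num) (by linarith)
              _ = 16 := by norm_num
    have e2 : ((2 : ℝ) ^ K) ^ (1 + 2 * η - 2 * β) ≤ (R : ℝ) ^ (x * (1 + 2 * η - 2 * β)) := by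
      rw [Real.rpow_mul hR0.le]
      exact Real.rpow_le_rpow_of_nonpos (by positivity) hK1 he
    have e3 : (R : ℝ) ^ (2 * η) * (R : ℝ) ^ (x * (2 * (2 + 2 * η - 2 * β))) ≤
        (R : ℝ) ^ e := by
      rw [← Real.rpow_add hR0]
      apply Real.rpow_le_rpow_of_exponent_le hR1
      linarith
    have e4 : (R : ℝ) ^ (2 * η) * ((R : ℝ) ^ 2 * (R : ℝ) ^ (x * (1 + 2 * η - 2 * β))) ≤
        (R : ℝ) ^ e := by
      rw [← Real.rpow_natCast (R : ℝ) 2, ← Real.rpow_add hR0, ← Real.rpow_add hR0]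
      apply Real.rpow_le_rpow_of_exponent_le hR1
      push_cast
      linarith
    have hCc : 0 ≤ C * c5 ^ 2 := by positivity
    calc 1 + C * (K : ℝ) ^ 2 * (2 * ((2 : ℝ) ^ K) ^ (2 * (2 + 2 * η - 2 * β)) +
          (R : ℝ) ^ 2 * ((2 : ℝ) ^ K) ^ (1 + 2 * η - 2 * β)) ≤
        1 + C * (c5 ^ 2 * (R : ℝ) ^ (2 * η)) *
          (2 * (16 * (R : ℝ) ^ (x * (2 * (2 + 2 * η - 2 * β)))) +
          (R : ℝ) ^ 2 * (R : ℝ) ^ (x * (1 + 2 * η - 2 * β))) := by
          gcongr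
      _ = 1 + C * c5 ^ 2 * (32 * ((R : ℝ) ^ (2 * η) * (R : ℝ) ^ (x * (2 * (2 + 2 * η - 2 * β)))) +
          (R : ℝ) ^ (2 * η) * ((R : ℝ) ^ 2 * (R : ℝ) ^ (x * (1 + 2 * η - 2 * β)))) := by ring
      _ ≤ 1 + C * c5 ^ 2 * (32 * (R : ℝ) ^ e + (R : ℝ) ^ e) := by
          gcongr
      _ = 1 + C * c5 ^ 2 * 33 * (R : ℝ) ^ e := by ring
      _ ≤ (S R₀ + 1 + C * c5 ^ 2 * 33) * (R : ℝ) ^ e := by
          linarith [mul_nonneg (hS0 R₀) (by linarith : (0 : ℝ) ≤ (R : ℝ) ^ e)]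

end Pool.Agent.T9h85.FF
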